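import Mathlib
import Pool.Graph.R_seed8.H988R2.Perc.Defs

/-!
The exploration path of critical bond percolation on `ℤ²` in the plane cut along a half-infinite
rectangle (thick slit), started at the left corner of the slit (helper966): definitions and
statements of the tasks (nothing is proved here).

Coordinates: the column of the vertex `x` is `x.1 - x.2`, its height is `x.1 + x.2`. The face with
lower left corner `f` (centre `f + (1/2,1/2)`) has column `f.1 - f.2` and height `f.1 + f.2 + 1`.
-/

namespace Pool.Agent.H966.TX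

open Pool.Agent.H988R2.Perc hiding X
open MeasureTheory

/-- the four directions, counterclockwise: `0` = right, `1` = up, `2` = left, `3` = down -/
def vec (d : Fin 4) : ℤ × ℤ :=
  match d with
  | 0 => (1, 0)
  | 1 => (0, 1)
  | 2 => (-1, 0)
  | 3 => (0, -1)

/-- the slit: columns `[0,m]`, heights `≥ 0` -/
def InSlit (m : ℕ) (x : ℤ × ℤ) : Prop := 0 ≤ x.1 - x.2 ∧ x.1 - x.2 ≤ m ∧ 0 ≤ x.1 + x.2

/-- the left bank of the slit -/
def LeftBank (x : ℤ × ℤ) : Prop := x.1 = x.2 ∧ 0 ≤ x.1

/-- the right bank of the slit -/
def RightBank (m : ℕ) (x : ℤ × ℤ) : Prop := x.1 - x.2 = m ∧ 0 ≤ x.1 + x.2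

/-- the edge `{x,y}` is open and not in the slit -/
def SAdj (m : ℕ) (ω : Conf) (x y : ℤ × ℤ) : Prop := OpenAdj ω x y ∧ ¬ (InSlit m x ∧ InSlit m y)

/-- Open edges of the forked channel (same as `T1.FAdj1`): columns in `[-a, m+b]`, not in the
slit. -/
def FAdj (a m b : ℕ) (ω : Conf) (x y : ℤ × ℤ) : Prop :=
  OpenAdj ω x y ∧ -(a:ℤ) ≤ x.1 - x.2 ∧ x.1 - x.2 ≤ ((m+b : ℕ) : ℤ) ∧
    -(a:ℤ) ≤ y.1 - y.2 ∧ y.1 - y.2 ≤ ((m+b : ℕ) : ℤ) ∧
    ¬ (0 ≤ x.1 + x.2 ∧ 0 ≤ y.1 + y.2 ∧ 0 ≤ x.1 - x.2 ∧ x.1 - x.2 ≤ m ∧
      0 ≤ y.1 - y.2 ∧ y.1 - y.2 ≤ m)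

/-- same as `T1.FCross1` -/
def FCross (a m b : ℕ) : Set Conf :=
  {ω | ∃ x y : ℤ × ℤ, x.1 - x.2 = 0 ∧ 0 ≤ x.1 + x.2 ∧ y.1 - y.2 = (m : ℤ) ∧ 0 ≤ y.1 + y.2 ∧
    Relation.ReflTransGen (FAdj a m b ω) x y}

open Classical in
/-- One step of the exploration path in the configuration `ω`. The path stands next to the vertex
`s.1` (which is on its right) and looks at the edge in direction `s.2`: if this edge is open and not
in the slit, the path goes along it and turns counterclockwise, otherwise it turns clockwise around
the vertex. The left bank is wired: at a vertex of the left bank, when it looks at the slit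
(direction `0`), it goes to the next vertex of the bank. -/
noncomputable def step (m : ℕ) (ω : Conf) (s : (ℤ × ℤ) × Fin 4) : (ℤ × ℤ) × Fin 4 :=
  if LeftBank s.1 ∧ s.2 = 0 then (s.1 + (1, 1), 2)
  else if SAdj m ω s.1 (s.1 + vec s.2) then (s.1 + vec s.2, s.2 + 1)
  else (s.1, s.2 + 3)

/-- the exploration path: it starts at the left corner `(0,0)` and looks down -/
noncomputable def path (m : ℕ) (ω : Conf) (n : ℕ) : (ℤ × ℤ) × Fin 4 := (step m ω)^[n] ((0, 0), 3)

/-- the face on the left of the path (its lower left corner) -/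
def face (s : (ℤ × ℤ) × Fin 4) : ℤ × ℤ :=
  match s.2 with
  | 0 => s.1
  | 1 => (s.1.1 - 1, s.1.2)
  | 2 => (s.1.1 - 1, s.1.2 - 1)
  | 3 => (s.1.1, s.1.2 - 1)

/-- the column of the face on the left of the path -/
def leftCol (s : (ℤ × ℤ) × Fin 4) : ℤ :=
  match s.2 with
  | 0 => s.1.1 - s.1.2
  | 1 => s.1.1 - s.1.2 - 1
  | 2 => s.1.1 - s.1.2
  | 3 => s.1.1 - s.1.2 + 1

/-- the path reaches the right bank of the slit (with its right side), and until then its left side
stays strictly between the columns `-a` and `m + b` -/
def InnerFirst (a m b : ℕ) : Set Conf :=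
  {ω | ∃ n, RightBank m (path m ω n).1 ∧
    ∀ j ≤ n, -(a : ℤ) < leftCol (path m ω j) ∧ leftCol (path m ω j) < (m : ℤ) + b}

/-- the left side of the path reaches the column `-a` or the column `m + b` before the path reaches
the right bank of the slit -/
def OuterFirst (a m b : ℕ) : Set Conf :=
  {ω | ∃ n, (leftCol (path m ω n) ≤ -(a : ℤ) ∨ (m : ℤ) + b ≤ leftCol (path m ω n)) ∧
    ∀ j ≤ n, ¬ RightBank m (path m ω j).1}

/-- edges of the slit which the left side of the path never crosses: both ends in the slit, no end
strictly inside the ledge (height `0`, column in `(0,m)`) -/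
def Bad (m : ℕ) (x y : ℤ × ℤ) : Prop := InSlit m x ∧ InSlit m y ∧
  ¬ (x.1 + x.2 = 0 ∧ 0 < x.1 - x.2 ∧ x.1 - x.2 < m) ∧
  ¬ (y.1 + y.2 = 0 ∧ 0 < y.1 - y.2 ∧ y.1 - y.2 < m)

/-- `V` is constant along dual paths which cross only edges which are not in the graph `FAdj` and
not `Bad`. (`face s` and `face (s.1, s.2 + 3)` are the two faces of the edge
`{s.1, s.1 + vec s.2}`.) -/
def DualConst (a m b : ℕ) (ω : Conf) (V : ℤ × ℤ → ZMod 2) : Prop :=
  ∀ s : (ℤ × ℤ) × Fin 4, ¬ FAdj a m b ω s.1 (s.1 + vec s.2) → ¬ Bad m s.1 (s.1 + vec s.2) →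
    V (face s) = V (face (s.1, s.2 + 3))

/-! ## TX1: planarity (parity argument)

Let the vertices `x`, `y` of the left and of the right bank be joined by a path `γ` of `FAdj`-edges.
Then there is a function `V` on faces, constant along dual paths not crossing edges of `FAdj`, with
value `1` at the face `(0,-1)` (the face on the left of the start of the path, column `1`, height
`0`) and value `0` at the faces outside the channel.

Proof. For a face `f` of column `c` and height `h` let `w f x y = 1` if `{x,y}` is an edge between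
the columns `c` and `c+1` whose two ends have height `≤ h` (that is: it lies below `f`; the vertex of
column `c` has height `≤ h-1`, the one of column `c+1` has height `≤ h`), else `0`; let
`W f = ∑ w f x_i x_{i+1}` over the steps of `γ` (in `ZMod 2`). Let `f`, `g` be two adjacent faces, `g`
in the column `c+1` (height `h ± 1`) and let `e` be their common edge. For every edge `{x,y}` of the
lattice with `{x,y} ≠ e`: `w f x y + w g x y = φ x + φ y`, where `φ x = 1` iff `x` lies in the column
`c+1` below `e` (i.e. its height is `≤ h` if `g` has height `h+1`, and `≤ h-2` if `g` has height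
`h-1`). Summation over `γ`: if `e` is not an edge of `γ` then `W f + W g = φ x + φ y` with the ends
`x`, `y` of `γ`. Let `ψ f = 1` if `f` is in the column `0` and has height `>` the height of `x`, else
`0`, and `V = W + ψ`. If `e` is not `Bad` then `φ x = ψ f + ψ g` and `φ y = 0`; hence `V f = V g`.
`V (0,-1) = 1`: the face `(-1,0)+(1,0)...` — take the face `f` of column `0` and height `1` (lower left
corner `(0,0)`) and `g = (0,-1)`: `W f` counts all the edges of `γ` between the columns `0` and `1`
(none of them has both ends at height `≥ 0`), which is odd, since `γ` starts in the column `0` and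
ends in the column `m ≥ 1` (general fact: the number of steps between the columns `c`, `c+1` has the
parity of `[x in column ≤ c] + [y in column ≤ c]`); and `W f + W g = φ x + φ y = 0` for this pair
(the common edge `{(0,0),(1,0)}` is in the slit, not an edge of `γ`). Outside the channel: `W = 0`
since no edge of `FAdj` lies between the columns `c` and `c+1` if `c ≥ m+b` or `c ≤ -a-1`, and `ψ = 0`
there (`m + b ≥ 1`, `-a-1 < 0`). It is convenient to prove by induction on the path
(`Relation.ReflTransGen`) that there is a `W` with the three properties for all ends `x`, `y` (in the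
form `W f + W g = φ x + φ y` for all adjacent faces whose common edge is not in `FAdj`, with `φ`
depending on the pair; `W f = 0` outside; `W = [x.1 - x.2 ≤ 0] + [y.1 - y.2 ≤ 0]` at the face of
column `0` and height `1`), and then to specialise. -/
def S_TX1 : Prop := ∀ (a m b : ℕ) (ω : Conf) (x y : ℤ × ℤ), 1 ≤ m → x.1 - x.2 = 0 →
  0 ≤ x.1 + x.2 → y.1 - y.2 = (m : ℤ) → 0 ≤ y.1 + y.2 →
  Relation.ReflTransGen (FAdj a m b ω) x y →
  ∃ V : ℤ × ℤ → ZMod 2, DualConst a m b ω V ∧ V (0, -1) = 1 ∧
    (∀ f : ℤ × ℤ, (m:ℤ) + b ≤ f.1 - f.2 → V f = 0) ∧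
    (∀ f : ℤ × ℤ, f.1 - f.2 ≤ -(a:ℤ) - 1 → V f = 0)

/-! ## TX2: invariants of the path before it leaves the channel

(i) the vertex on the right is joined to the left bank; (ii) the face on the left is joined to the
starting face `(0,-1)`. Proof by induction on `n`, with the additional invariants:
`-a ≤ column ≤ m+b` for the vertex; the vertex is not strictly inside the slit (`¬ (0 < column < m ∧
0 < height)`); at a vertex of the left bank of height `≥ 1` the direction is not `3` (see
`Pool.Agent.H492E.E4_noStart` in `Pool/Graph/R_seed8/H492E/E4a.lean`). While `-a < leftCol < m+b` the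
edge at which the path looks has both ends in the columns `[-a, m+b]`, so that `SAdj` and `FAdj` are
the same for it. If this edge is in the slit, then the vertex is on the left bank (then the direction
would be `0`: bank step, or `3` with height `≥ 1`: excluded), strictly inside the ledge (then the edge
is not `Bad`) or on the right bank (excluded). `face` does not change in the other two kinds of
steps. -/
def S_TX2 : Prop := ∀ (a m b : ℕ) (ω : Conf) (n : ℕ), 1 ≤ a → 1 ≤ m → 1 ≤ b →
  (∀ j < n, ¬ RightBank m (path m ω j).1 ∧ -(a : ℤ) < leftCol (path m ω j) ∧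
    leftCol (path m ω j) < (m : ℤ) + b) →
  (∃ x : ℤ × ℤ, x.1 - x.2 = 0 ∧ 0 ≤ x.1 + x.2 ∧
    Relation.ReflTransGen (FAdj a m b ω) x (path m ω n).1) ∧
  ∀ V : ℤ × ℤ → ZMod 2, DualConst a m b ω V → V (face (path m ω n)) = V (0, -1)

/-! ## TX3: the path leaves the channel almost surely

Adapt `H492E/E4a, E4b, E4c, E5` (`Pool/Graph/R_seed8/H492E/`). (1) The step is injective on the states
which are not `(z,3)` with `z` on the left bank of height `≥ 1`, the path never takes such a value and
never comes back to `((0,0),3)`; hence it never visits the same state twice. (2) Almost surely there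
are `h1 ≤ -3` and `h2 ≥ 3` such that all edges between the heights `h1` and `h1+1` and between the
columns `-a` and `m+b` are open, the same for `h2` (`Pool.Agent.H492E.e5_rows`). Before the exit the
height of the face on the left stays in `[h1+1, h2]` (the left face only changes by crossing an edge
which is not open or which is in the slit and touches the ledge, heights `0` and `1`); hence the
vertex stays in a finite set. By (1) the path must leave. -/
def S_TX3 : Prop := ∀ a m b : ℕ, 1 ≤ a → 1 ≤ m → 1 ≤ b → ∀ᵐ ω ∂perc,
  ∃ n, RightBank m (path m ω n).1 ∨ leftCol (path m ω n) ≤ -(a : ℤ) ∨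
    (m : ℤ) + b ≤ leftCol (path m ω n)

/-! ## TX4: measurability. Adapt `Pool/Graph/R_seed8/H984Q/Meas.lean` (`m_open`, ..., `m_events`). -/
def S_TX4 : Prop := ∀ a m b : ℕ, MeasurableSet (InnerFirst a m b) ∧ MeasurableSet (OuterFirst a m b)

end Pool.Agent.H966.TX
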