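import Pool.Agent.H966.TX.Defs
import Pool.Graph.R_seed8.H492E.E4b
import Pool.Graph.R_seed8.H492E.E5

set_option autoImplicit false

/-!
TX3: the exploration path leaves the channel almost surely.
-/

namespace Pool.Agent.H966.TX

open Pool.Agent.H988R2.Perc hiding X
open MeasureTheory

namespace E

theorem step_cases (m : ℕ) (ω : Conf) (s : (ℤ × ℤ) × Fin 4) :
    (LeftBank s.1 ∧ s.2 = 0 ∧ step m ω s = (s.1 + (1, 1), 2)) ∨
    (¬ (LeftBank s.1 ∧ s.2 = 0) ∧ SAdj m ω s.1 (s.1 + vec s.2) ∧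
      step m ω s = (s.1 + vec s.2, s.2 + 1)) ∨
    (¬ (LeftBank s.1 ∧ s.2 = 0) ∧ ¬ SAdj m ω s.1 (s.1 + vec s.2) ∧
      step m ω s = (s.1, s.2 + 3)) := by
  classical
  unfold step
  by_cases h : LeftBank s.1 ∧ s.2 = 0
  · left
    refine ⟨h.1, h.2, ?_⟩
    rw [if_pos h]
  · by_cases h' : SAdj m ω s.1 (s.1 + vec s.2)
    · right; left
      refine ⟨h, h', ?_⟩
      rw [if_neg h, if_pos h']
    · right; right
      refine ⟨h, h', ?_⟩
      rw [if_neg h, if_neg h']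

theorem sAdj_symm (m : ℕ) (ω : Conf) (x y : ℤ × ℤ) (h : SAdj m ω x y) : SAdj m ω y x := by
  obtain ⟨ho, h1⟩ := h
  refine ⟨?_, fun hh => h1 ⟨hh.2, hh.1⟩⟩
  rcases ho with ho | ho | ho | ho
  · exact Or.inr (Or.inl ho)
  · exact Or.inl ho
  · exact Or.inr (Or.inr (Or.inr ho))
  · exact Or.inr (Or.inr (Or.inl ho))

theorem f4a : ∀ d : Fin 4, d + 1 = 3 → d = 2 := by decide
theorem f4b : ∀ d : Fin 4, d + 3 = 3 → d = 0 := by decide
theorem f4c : ∀ d : Fin 4, d + 1 = 2 → d = 1 := by decide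
theorem f4d : ∀ d : Fin 4, d + 3 = 2 → d = 3 := by decide
theorem f4e : ∀ d d' : Fin 4, d + 1 = d' + 3 → d' = d + 2 := by decide

theorem noStart (m : ℕ) (hm : 1 ≤ m) (ω : Conf) (s : (ℤ × ℤ) × Fin 4) (z : ℤ × ℤ)
    (hz : LeftBank z) : step m ω s ≠ (z, 3) := by
  obtain ⟨⟨u, v⟩, d⟩ := s
  obtain ⟨z1, z2⟩ := z
  unfold LeftBank at hz
  simp only at hz
  intro h
  rcases step_cases m ω ((u, v), d) with ⟨-, -, e⟩ | ⟨-, hs, e⟩ | ⟨hn, -, e⟩
  · rw [e] at h
    have := congrArg Prod.snd h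
    simp at this
  · rw [e] at h
    have h2 := congrArg Prod.snd h
    have h1 := congrArg Prod.fst h
    simp only at h1 h2 hs
    have hd : d = 2 := f4a d h2
    subst hd
    simp only [vec, Prod.mk_add_mk, Prod.mk.injEq] at h1 hs
    obtain ⟨-, h5⟩ := hs
    apply h5
    unfold InSlit
    simp only
    omega
  · rw [e] at h
    have h2 := congrArg Prod.snd h
    have h1 := congrArg Prod.fst h
    simp only [Prod.mk.injEq] at h1 h2 hn
    have hd : d = 0 := f4b d h2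
    apply hn
    refine ⟨?_, hd⟩
    unfold LeftBank
    simp only
    omega

theorem inj (m : ℕ) (hm : 1 ≤ m) (ω : Conf) (s s' : (ℤ × ℤ) × Fin 4)
    (h1 : ¬ (LeftBank s.1 ∧ 1 ≤ s.1.1 + s.1.2 ∧ s.2 = 3))
    (h2 : ¬ (LeftBank s'.1 ∧ 1 ≤ s'.1.1 + s'.1.2 ∧ s'.2 = 3))
    (h : step m ω s = step m ω s') : s = s' := by
  have BO : ∀ s s' : (ℤ × ℤ) × Fin 4, LeftBank s.1 → SAdj m ω s'.1 (s'.1 + vec s'.2) →
      ((s.1 + (1, 1), (2 : Fin 4)) : (ℤ × ℤ) × Fin 4) = (s'.1 + vec s'.2, s'.2 + 1) → False := by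
    intro s s' hb hs e
    obtain ⟨⟨u, v⟩, d⟩ := s
    obtain ⟨⟨u', v'⟩, d'⟩ := s'
    have e2 := congrArg Prod.snd e
    have e1 := congrArg Prod.fst e
    simp only at e1 e2 hs hb
    have hd : d' = 1 := f4c d' e2.symm
    subst hd
    unfold LeftBank at hb
    simp only [vec, Prod.mk_add_mk, Prod.mk.injEq] at e1 hs hb
    obtain ⟨-, h5⟩ := hs
    apply h5
    unfold InSlit
    simp only
    omega
  have BC : ∀ s s' : (ℤ × ℤ) × Fin 4, LeftBank s.1 →
      ¬ (LeftBank s'.1 ∧ 1 ≤ s'.1.1 + s'.1.2 ∧ s'.2 = 3) →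
      ((s.1 + (1, 1), (2 : Fin 4)) : (ℤ × ℤ) × Fin 4) = (s'.1, s'.2 + 3) → False := by
    intro s s' hb hn e
    obtain ⟨⟨u, v⟩, d⟩ := s
    obtain ⟨⟨u', v'⟩, d'⟩ := s'
    have e2 := congrArg Prod.snd e
    have e1 := congrArg Prod.fst e
    simp only at e1 e2 hb hn
    have hd : d' = 3 := f4d d' e2.symm
    apply hn
    unfold LeftBank at hb ⊢
    simp only [Prod.mk_add_mk, Prod.mk.injEq] at e1 hb ⊢
    refine ⟨?_, ?_, hd⟩ <;> omega
  have OC : ∀ s s' : (ℤ × ℤ) × Fin 4, SAdj m ω s.1 (s.1 + vec s.2) →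
      ¬ SAdj m ω s'.1 (s'.1 + vec s'.2) →
      ((s.1 + vec s.2, s.2 + 1) : (ℤ × ℤ) × Fin 4) = (s'.1, s'.2 + 3) → False := by
    intro s s' hs hn e
    obtain ⟨x, d⟩ := s
    obtain ⟨y, d'⟩ := s'
    have e2 := congrArg Prod.snd e
    have e1 := congrArg Prod.fst e
    simp only at e1 e2 hs hn
    have hd : d' = d + 2 := f4e d d' e2
    have hv : x = y + vec d' := by
      rw [← e1, hd]
      obtain ⟨x1, x2⟩ := x
      fin_cases d <;> simp [vec]
    apply hn
    rw [← hv, ← e1]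
    exact sAdj_symm m ω _ _ hs
  rcases step_cases m ω s with ⟨b1, d1, e1⟩ | ⟨n1, o1, e1⟩ | ⟨n1, c1, e1⟩ <;>
    rcases step_cases m ω s' with ⟨b2, d2, e2⟩ | ⟨n2, o2, e2⟩ | ⟨n2, c2, e2⟩ <;>
    rw [e1, e2] at h
  · have h3 := congrArg Prod.fst h
    exact Prod.ext (add_right_cancel h3) (d1.trans d2.symm)
  · exact (BO s s' b1 o2 h).elim
  · exact (BC s s' b1 h2 h).elim
  · exact (BO s' s b2 o1 h.symm).elim
  · have h3 := congrArg Prod.fst h
    have h4 : s.2 = s'.2 := add_right_cancel (congrArg Prod.snd h)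
    simp only at h3
    rw [h4] at h3
    exact Prod.ext (add_right_cancel h3) h4
  · exact (OC s s' o1 c2 h).elim
  · exact (BC s' s b2 h1 h.symm).elim
  · exact (OC s' s o2 c1 h.symm).elim
  · have h3 := congrArg Prod.fst h
    have h4 : s.2 = s'.2 := add_right_cancel (congrArg Prod.snd h)
    exact Prod.ext h3 h4

theorem path_succ (m : ℕ) (ω : Conf) (n : ℕ) :
    path m ω (n + 1) = step m ω (path m ω n) := by
  unfold path
  rw [Function.iterate_succ_apply']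

theorem path_zero (m : ℕ) (ω : Conf) : path m ω 0 = ((0, 0), 3) := rfl

theorem good (m : ℕ) (hm : 1 ≤ m) (ω : Conf) (n : ℕ) :
    ¬ (LeftBank (path m ω n).1 ∧ 1 ≤ (path m ω n).1.1 + (path m ω n).1.2 ∧
      (path m ω n).2 = 3) := by
  rintro ⟨h1, h2, h3⟩
  cases n with
  | zero =>
    rw [path_zero] at h2
    norm_num at h2
  | succ n =>
    have h := noStart m hm ω (path m ω n) (path m ω (n + 1)).1 h1
    rw [← path_succ] at h
    exact h (Prod.ext rfl h3)

theorem path_inj (m : ℕ) (hm : 1 ≤ m) (ω : Conf) :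
    ∀ i j : ℕ, i < j → path m ω i ≠ path m ω j := by
  intro i
  induction i with
  | zero =>
    intro j hj h
    obtain ⟨k, rfl⟩ : ∃ k, j = k + 1 := ⟨j - 1, by omega⟩
    rw [path_succ, path_zero] at h
    exact noStart m hm ω (path m ω k) (0, 0) ⟨rfl, le_rfl⟩ h.symm
  | succ i ih =>
    intro j hj h
    obtain ⟨k, rfl⟩ : ∃ k, j = k + 1 := ⟨j - 1, by omega⟩
    rw [path_succ, path_succ] at h
    exact ih k (by omega) (inj m hm ω _ _ (good m hm ω i) (good m hm ω k) h)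

/-- height of the face on the left -/
def sy (s : (ℤ × ℤ) × Fin 4) : ℤ :=
  match s.2 with
  | 0 => s.1.1 + s.1.2 + 1
  | 1 => s.1.1 + s.1.2
  | 2 => s.1.1 + s.1.2 - 1
  | 3 => s.1.1 + s.1.2

/-- the invariant -/
structure Inv (m : ℕ) (h1 h2 : ℤ) (s : (ℤ × ℤ) × Fin 4) : Prop where
  ins : ¬ (0 < s.1.1 - s.1.2 ∧ s.1.1 - s.1.2 < m ∧ 0 < s.1.1 + s.1.2)
  lo : h1 + 1 ≤ sy s
  up : sy s ≤ h2

theorem sy_open (x : ℤ × ℤ) (d : Fin 4) : sy (x + vec d, d + 1) = sy (x, d) := by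
  obtain ⟨u, v⟩ := x
  fin_cases d
  · show (u + 1) + (v + 0) = u + v + 1
    omega
  · show (u + 0) + (v + 1) - 1 = u + v
    omega
  · show (u + -1) + (v + 0) = u + v - 1
    omega
  · show (u + 0) + (v + -1) + 1 = u + v
    omega

theorem step_inv (a m b : ℕ) (ω : Conf) (h1 h2 : ℤ) (hh1 : h1 ≤ -1) (hh2 : 1 ≤ h2)
    (r1 : Pool.Agent.H492E.Row (-(a : ℤ)) ((m : ℤ) + b) h1 true ω)
    (r2 : Pool.Agent.H492E.Row (-(a : ℤ)) ((m : ℤ) + b) h2 true ω)
    (s : (ℤ × ℤ) × Fin 4) (hI : Inv m h1 h2 s) (hR : ¬ RightBank m s.1)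
    (hL1 : -(a : ℤ) < leftCol s) (hL2 : leftCol s < (m : ℤ) + b) :
    Inv m h1 h2 (step m ω s) := by
  obtain ⟨ins, lo, up⟩ := hI
  rcases step_cases m ω s with ⟨hb, hd, e⟩ | ⟨-, ho, e⟩ | ⟨-, hn, e⟩
  · obtain ⟨⟨u, v⟩, d⟩ := s
    simp only at hd
    subst hd
    obtain ⟨hb1, hb2⟩ := hb
    simp only at hb1 hb2
    rw [e]
    have lo' : h1 + 1 ≤ u + v + 1 := lo
    have up' : u + v + 1 ≤ h2 := up
    refine ⟨?_, ?_, ?_⟩
    · rintro ⟨h, -, -⟩
      have h' : 0 < (u + 1) - (v + 1) := h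
      omega
    · show h1 + 1 ≤ (u + 1) + (v + 1) - 1
      omega
    · show (u + 1) + (v + 1) - 1 ≤ h2
      omega
  · rw [e]
    obtain ⟨x, d⟩ := s
    refine ⟨?_, ?_, ?_⟩
    · obtain ⟨-, h5⟩ := ho
      intro hin
      apply h5
      obtain ⟨u, v⟩ := x
      unfold InSlit
      simp only at hin ⊢
      revert hin
      fin_cases d
      · show 0 < (u + 1) - (v + 0) ∧ (u + 1) - (v + 0) < m ∧ 0 < (u + 1) + (v + 0) → _ ∧
          (0 ≤ (u + 1) - (v + 0) ∧ (u + 1) - (v + 0) ≤ m ∧ 0 ≤ (u + 1) + (v + 0))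
        omega
      · show 0 < (u + 0) - (v + 1) ∧ (u + 0) - (v + 1) < m ∧ 0 < (u + 0) + (v + 1) → _ ∧
          (0 ≤ (u + 0) - (v + 1) ∧ (u + 0) - (v + 1) ≤ m ∧ 0 ≤ (u + 0) + (v + 1))
        omega
      · show 0 < (u + -1) - (v + 0) ∧ (u + -1) - (v + 0) < m ∧ 0 < (u + -1) + (v + 0) → _ ∧
          (0 ≤ (u + -1) - (v + 0) ∧ (u + -1) - (v + 0) ≤ m ∧ 0 ≤ (u + -1) + (v + 0))
        omega
      · show 0 < (u + 0) - (v + -1) ∧ (u + 0) - (v + -1) < m ∧ 0 < (u + 0) + (v + -1) → _ ∧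
          (0 ≤ (u + 0) - (v + -1) ∧ (u + 0) - (v + -1) ≤ m ∧ 0 ≤ (u + 0) + (v + -1))
        omega
    · show h1 + 1 ≤ sy (x + vec d, d + 1)
      rw [sy_open]
      exact lo
    · show sy (x + vec d, d + 1) ≤ h2
      rw [sy_open]
      exact up
  · rw [e]
    obtain ⟨⟨u, v⟩, d⟩ := s
    simp only at hn ins
    refine ⟨ins, ?_, ?_⟩
    · fin_cases d
      · show h1 + 1 ≤ u + v
        have lo' : h1 + 1 ≤ u + v + 1 := lo
        have c1 : -(a : ℤ) < u - v := hL1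
        have c2 : u - v < (m : ℤ) + b := hL2
        by_contra hcon
        have h6 : u + v = h1 := by omega
        have h7 := (r1 u v).1 (by omega) (by omega) h6
        apply hn
        have : ((u, v) : ℤ × ℤ) + vec 0 = (u + 1, v) := by simp [vec]
        show SAdj m ω (u, v) (((u, v) : ℤ × ℤ) + vec 0)
        rw [this]
        refine ⟨(Pool.Agent.H492E.E4b_o0 ω u v).mpr h7, ?_⟩
        rintro ⟨⟨-, -, h8⟩, -⟩
        simp only at h8
        omega
      · show h1 + 1 ≤ u + v + 1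
        have lo' : h1 + 1 ≤ u + v := lo
        omega
      · show h1 + 1 ≤ u + v
        have lo' : h1 + 1 ≤ u + v - 1 := lo
        omega
      · show h1 + 1 ≤ u + v - 1
        have lo' : h1 + 1 ≤ u + v := lo
        have c1 : -(a : ℤ) < u - v + 1 := hL1
        have c2 : u - v + 1 < (m : ℤ) + b := hL2
        by_contra hcon
        have h6 : u + (v - 1) = h1 := by omega
        have h7 := (r1 u (v - 1)).2 (by omega) (by omega) h6
        apply hn
        have : ((u, v) : ℤ × ℤ) + vec 3 = (u, v - 1) := by simp [vec, sub_eq_add_neg]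
        show SAdj m ω (u, v) (((u, v) : ℤ × ℤ) + vec 3)
        rw [this]
        refine ⟨(Pool.Agent.H492E.E4b_o3 ω u v).mpr h7, ?_⟩
        rintro ⟨-, -, -, h8⟩
        simp only at h8
        omega
    · fin_cases d
      · show u + v ≤ h2
        have up' : u + v + 1 ≤ h2 := up
        omega
      · show u + v + 1 ≤ h2
        have up' : u + v ≤ h2 := up
        have c1 : -(a : ℤ) < u - v - 1 := hL1
        have c2 : u - v - 1 < (m : ℤ) + b := hL2
        by_contra hcon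
        have h6 : u + v = h2 := by omega
        have h7 := (r2 u v).2 (by omega) (by omega) h6
        apply hn
        have : ((u, v) : ℤ × ℤ) + vec 1 = (u, v + 1) := by simp [vec]
        show SAdj m ω (u, v) (((u, v) : ℤ × ℤ) + vec 1)
        rw [this]
        refine ⟨(Pool.Agent.H492E.E4b_o1 ω u v).mpr h7, ?_⟩
        rintro ⟨⟨h8, h9, -⟩, h10, -, -⟩
        simp only at h8 h9 h10
        unfold RightBank at hR
        simp only at hR
        omega
      · show u + v ≤ h2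
        have up' : u + v - 1 ≤ h2 := up
        have c1 : -(a : ℤ) < u - v := hL1
        have c2 : u - v < (m : ℤ) + b := hL2
        by_contra hcon
        have h6 : (u - 1) + v = h2 := by omega
        have h7 := (r2 (u - 1) v).1 (by omega) (by omega) h6
        apply hn
        have : ((u, v) : ℤ × ℤ) + vec 2 = (u - 1, v) := by simp [vec, sub_eq_add_neg]
        show SAdj m ω (u, v) (((u, v) : ℤ × ℤ) + vec 2)
        rw [this]
        refine ⟨(Pool.Agent.H492E.E4b_o2 ω u v).mpr h7, ?_⟩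
        rintro ⟨⟨h8, h9, -⟩, h10, -, -⟩
        simp only at h8 h9 h10
        unfold RightBank at hR
        simp only at hR
        omega
      · show u + v - 1 ≤ h2
        have up' : u + v ≤ h2 := up
        omega

theorem stops (a m b : ℕ) (hm : 1 ≤ m) (ω : Conf) (h1 h2 : ℤ) (hh1 : h1 ≤ -1) (hh2 : 1 ≤ h2)
    (r1 : Pool.Agent.H492E.Row (-(a : ℤ)) ((m : ℤ) + b) h1 true ω)
    (r2 : Pool.Agent.H492E.Row (-(a : ℤ)) ((m : ℤ) + b) h2 true ω) :
    ∃ n, RightBank m (path m ω n).1 ∨ leftCol (path m ω n) ≤ -(a : ℤ) ∨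
      (m : ℤ) + b ≤ leftCol (path m ω n) := by
  by_contra hs
  push Not at hs
  have hinv : ∀ n, Inv m h1 h2 (path m ω n) := by
    intro n
    induction n with
    | zero =>
      rw [path_zero]
      refine ⟨?_, ?_, ?_⟩
      · rintro ⟨h, -, -⟩
        norm_num at h
      · show h1 + 1 ≤ 0 + 0
        omega
      · show (0 : ℤ) + 0 ≤ h2
        omega
    | succ n ih =>
      rw [path_succ]
      exact step_inv a m b ω h1 h2 hh1 hh2 r1 r2 _ ih (hs n).1 (hs n).2.1 (hs n).2.2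
  obtain ⟨N, hN⟩ : ∃ N : ℤ, N = a + m + b + (-h1) + h2 + 1 := ⟨_, rfl⟩
  have hall : ∀ n, path m ω n ∈ ((Finset.Icc (-N) N ×ˢ Finset.Icc (-N) N) ×ˢ
      (Finset.univ : Finset (Fin 4))) := by
    intro n
    have hI := hinv n
    obtain ⟨-, c1, c2⟩ := hs n
    generalize path m ω n = s at hI c1 c2 ⊢
    obtain ⟨⟨u, v⟩, d⟩ := s
    obtain ⟨-, lo, up⟩ := hI
    simp only [Finset.mem_product, Finset.mem_Icc, Finset.mem_univ, and_true]
    fin_cases d
    · have lo' : h1 + 1 ≤ u + v + 1 := lo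
      have up' : u + v + 1 ≤ h2 := up
      have d1 : -(a : ℤ) < u - v := c1
      have d2 : u - v < (m : ℤ) + b := c2
      refine ⟨⟨?_, ?_⟩, ?_, ?_⟩ <;> omega
    · have lo' : h1 + 1 ≤ u + v := lo
      have up' : u + v ≤ h2 := up
      have d1 : -(a : ℤ) < u - v - 1 := c1
      have d2 : u - v - 1 < (m : ℤ) + b := c2
      refine ⟨⟨?_, ?_⟩, ?_, ?_⟩ <;> omega
    · have lo' : h1 + 1 ≤ u + v - 1 := lo
      have up' : u + v - 1 ≤ h2 := up
      have d1 : -(a : ℤ) < u - v := c1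
      have d2 : u - v < (m : ℤ) + b := c2
      refine ⟨⟨?_, ?_⟩, ?_, ?_⟩ <;> omega
    · have lo' : h1 + 1 ≤ u + v := lo
      have up' : u + v ≤ h2 := up
      have d1 : -(a : ℤ) < u - v + 1 := c1
      have d2 : u - v + 1 < (m : ℤ) + b := c2
      refine ⟨⟨?_, ?_⟩, ?_, ?_⟩ <;> omega
  generalize hF : ((Finset.Icc (-N) N ×ˢ Finset.Icc (-N) N) ×ˢ
      (Finset.univ : Finset (Fin 4))) = F at hall
  have hinj : Function.Injective (fun n => (⟨path m ω n, hall n⟩ : F)) := by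
    intro i j hij
    have hij' : path m ω i = path m ω j := congrArg Subtype.val hij
    rcases lt_trichotomy i j with hlt | heq | hgt
    · exact (path_inj m hm ω i j hlt hij').elim
    · exact heq
    · exact (path_inj m hm ω j i hgt hij'.symm).elim
  exact not_injective_infinite_finite _ hinj

end E

/-- task TX3 -/
theorem t_TX3 : S_TX3 := by
  intro a m b _ hm _
  have h1 := Pool.Agent.H492E.e5_rows (-(a : ℤ)) ((m : ℤ) + b) true
    (fun n => -(2 * (n : ℤ) + 1)) (fun m n h => by omega) (fun m n => by omega)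
  have h2 := Pool.Agent.H492E.e5_rows (-(a : ℤ)) ((m : ℤ) + b) true
    (fun n => 2 * (n : ℤ) + 1) (fun m n h => by omega) (fun m n => by omega)
  filter_upwards [h1, h2] with ω ⟨n1, r1⟩ ⟨n2, r2⟩
  exact E.stops a m b hm ω _ _ (by omega) (by omega) r1 r2

end Pool.Agent.H966.TX
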