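import Pool.Agent.H966.TX.Defs

/-! TX4: measurability of the exploration events. -/

namespace Pool.Agent.H966.TX

open Pool.Agent.H988R2.Perc hiding X
open MeasureTheory

namespace M

theorem m_edge (e : Edge) : MeasurableSet {ω : Conf | ω e = true} := by
  have h : Measurable (fun ω : Conf => ω e) := measurable_pi_apply e
  exact h (measurableSet_singleton true)

theorem m_open (x y : ℤ × ℤ) : MeasurableSet {ω : Conf | OpenAdj ω x y} := by
  have h1 : MeasurableSet {ω : Conf | y = (x.1 + 1, x.2) ∧ ω (x.1, x.2, false) = true} :=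
    (MeasurableSet.const _).inter (m_edge _)
  have h2 : MeasurableSet {ω : Conf | x = (y.1 + 1, y.2) ∧ ω (y.1, y.2, false) = true} :=
    (MeasurableSet.const _).inter (m_edge _)
  have h3 : MeasurableSet {ω : Conf | y = (x.1, x.2 + 1) ∧ ω (x.1, x.2, true) = true} :=
    (MeasurableSet.const _).inter (m_edge _)
  have h4 : MeasurableSet {ω : Conf | x = (y.1, y.2 + 1) ∧ ω (y.1, y.2, true) = true} :=
    (MeasurableSet.const _).inter (m_edge _)
  exact h1.union (h2.union (h3.union h4))

theorem m_adj (m : ℕ) (x y : ℤ × ℤ) : MeasurableSet {ω : Conf | SAdj m ω x y} :=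
  (m_open x y).inter (MeasurableSet.const _)

theorem m_step (m : ℕ) (s t : (ℤ × ℤ) × Fin 4) : MeasurableSet {ω : Conf | step m ω s = t} := by
  by_cases h : LeftBank s.1 ∧ s.2 = 0
  · have : {ω : Conf | step m ω s = t} = {_ω : Conf | (s.1 + (1, 1), (2 : Fin 4)) = t} := by
      ext ω
      simp only [Set.mem_ofPred_eq, step, if_pos h]
    rw [this]
    exact MeasurableSet.const _
  · have : {ω : Conf | step m ω s = t} =
        ({ω : Conf | SAdj m ω s.1 (s.1 + vec s.2)} ∩
          {_ω : Conf | (s.1 + vec s.2, s.2 + 1) = t}) ∪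
        ({ω : Conf | SAdj m ω s.1 (s.1 + vec s.2)}ᶜ ∩
          {_ω : Conf | (s.1, s.2 + 3) = t}) := by
      ext ω
      simp only [Set.mem_ofPred_eq, step, if_neg h, Set.mem_union, Set.mem_inter_iff,
        Set.mem_compl_iff]
      by_cases h' : SAdj m ω s.1 (s.1 + vec s.2)
      · rw [if_pos h']
        constructor
        · intro h2; exact Or.inl ⟨h', h2⟩
        · rintro (h2 | h2)
          · exact h2.2
          · exact absurd h' h2.1
      · rw [if_neg h']
        constructor
        · intro h2; exact Or.inr ⟨h', h2⟩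
        · rintro (h2 | h2)
          · exact absurd h2.1 h'
          · exact h2.2
    rw [this]
    exact ((m_adj _ _ _).inter (MeasurableSet.const _)).union
      ((m_adj _ _ _).compl.inter (MeasurableSet.const _))

theorem path_succ (m : ℕ) (ω : Conf) (n : ℕ) : path m ω (n + 1) = step m ω (path m ω n) := by
  unfold path
  rw [Function.iterate_succ_apply']

theorem m_path (m n : ℕ) : Measurable (fun ω : Conf => path m ω n) := by
  induction n with
  | zero =>
    have : (fun ω : Conf => path m ω 0) = fun _ => ((0, 0), 3) := by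
      funext ω
      rfl
    rw [this]
    exact measurable_const
  | succ n ih =>
    apply measurable_to_countable'
    intro t
    have : (fun ω : Conf => path m ω (n+1)) ⁻¹' {t} =
        ⋃ s : (ℤ × ℤ) × Fin 4, ((fun ω : Conf => path m ω n) ⁻¹' {s}) ∩
          {ω : Conf | step m ω s = t} := by
      ext ω
      simp only [Set.mem_preimage, Set.mem_singleton_iff, Set.mem_iUnion, Set.mem_inter_iff,
        Set.mem_ofPred_eq]
      rw [path_succ]
      constructor
      · intro h
        exact ⟨_, rfl, h⟩
      · rintro ⟨s, hs, h⟩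
        rw [hs]
        exact h
    rw [this]
    exact MeasurableSet.iUnion fun s => (ih (measurableSet_singleton s)).inter (m_step _ _ _)

theorem key (m : ℕ) (P : (ℤ × ℤ) × Fin 4 → Prop) (n : ℕ) :
    MeasurableSet {ω : Conf | P (path m ω n)} :=
  (m_path m n) (MeasurableSet.of_discrete (s := {s | P s}))

end M

theorem t_TX4 : S_TX4 := by
  intro a m b
  constructor
  · have : InnerFirst a m b = ⋃ n : ℕ, ({ω : Conf | RightBank m (path m ω n).1} ∩
        ⋂ j : ℕ, ⋂ _ : j ≤ n, {ω : Conf | -(a : ℤ) < leftCol (path m ω j) ∧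
          leftCol (path m ω j) < (m : ℤ) + b}) := by
      ext ω
      simp only [InnerFirst, Set.mem_ofPred_eq, Set.mem_iUnion, Set.mem_inter_iff, Set.mem_iInter]
    rw [this]
    exact MeasurableSet.iUnion fun n => (M.key m (fun s => RightBank m s.1) n).inter
      (MeasurableSet.iInter fun j => MeasurableSet.iInter fun _ =>
        M.key m (fun s => -(a : ℤ) < leftCol s ∧ leftCol s < (m : ℤ) + b) j)
  · have : OuterFirst a m b = ⋃ n : ℕ, ({ω : Conf | leftCol (path m ω n) ≤ -(a : ℤ) ∨
        (m : ℤ) + b ≤ leftCol (path m ω n)} ∩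
        ⋂ j : ℕ, ⋂ _ : j ≤ n, {ω : Conf | ¬ RightBank m (path m ω j).1}) := by
      ext ω
      simp only [OuterFirst, Set.mem_ofPred_eq, Set.mem_iUnion, Set.mem_inter_iff, Set.mem_iInter]
    rw [this]
    exact MeasurableSet.iUnion fun n => (M.key m (fun s => leftCol s ≤ -(a : ℤ) ∨
        (m : ℤ) + b ≤ leftCol s) n).inter
      (MeasurableSet.iInter fun j => MeasurableSet.iInter fun _ =>
        M.key m (fun s => ¬ RightBank m s.1) j)

end Pool.Agent.H966.TX
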