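import Pool.Agent.H966.TX.V
import Pool.Agent.H966.TX.I
import Pool.Agent.H966.TX.E
import Pool.Agent.H966.TX.M

/-!
The exploration path in the plane cut along a thick slit (helper966): the event `InnerFirst` is the
crossing event of the forked channel up to a null set.
-/

namespace Pool.Agent.H966.TX

open Pool.Agent.H988R2.Perc hiding X
open MeasureTheory Filter

theorem path_succ (m : ℕ) (ω : Conf) (n : ℕ) : path m ω (n + 1) = step m ω (path m ω n) := by
  unfold path
  rw [Function.iterate_succ_apply']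

theorem leftCol_face (s : (ℤ × ℤ) × Fin 4) : leftCol s = (face s).1 - (face s).2 := by
  obtain ⟨⟨u, v⟩, d⟩ := s
  have hd : d = 0 ∨ d = 1 ∨ d = 2 ∨ d = 3 := by fin_cases d <;> simp
  unfold leftCol face
  rcases hd with rfl | rfl | rfl | rfl <;> simp only <;> ring

/-- a state outside the channel or on the right bank -/
def Exit (a m b : ℕ) (s : (ℤ × ℤ) × Fin 4) : Prop :=
  RightBank m s.1 ∨ leftCol s ≤ -(a : ℤ) ∨ (m : ℤ) + b ≤ leftCol s

/-- the three kinds of steps -/
theorem step_cases (m : ℕ) (ω : Conf) (s : (ℤ × ℤ) × Fin 4) :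
    (LeftBank s.1 ∧ s.2 = 0 ∧ step m ω s = (s.1 + (1, 1), 2)) ∨
    (SAdj m ω s.1 (s.1 + vec s.2) ∧ step m ω s = (s.1 + vec s.2, s.2 + 1)) ∨
    (step m ω s = (s.1, s.2 + 3)) := by
  classical
  unfold step
  by_cases h : LeftBank s.1 ∧ s.2 = 0
  · left
    refine ⟨h.1, h.2, ?_⟩
    rw [if_pos h]
  · by_cases h' : SAdj m ω s.1 (s.1 + vec s.2)
    · right; left
      refine ⟨h', ?_⟩
      rw [if_neg h, if_pos h']
    · right; right
      rw [if_neg h, if_neg h']

/-- the face changes only if the vertex does not -/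
theorem step_face (m : ℕ) (ω : Conf) (s : (ℤ × ℤ) × Fin 4) :
    leftCol (step m ω s) = leftCol s ∨ (step m ω s).1 = s.1 := by
  rcases step_cases m ω s with ⟨_, h2, h⟩ | ⟨_, h⟩ | h
  · left
    rw [h]
    obtain ⟨⟨u, v⟩, d⟩ := s
    simp only at h2
    subst h2
    show (u + 1) - (v + 1) = u - v
    ring
  · left
    rw [h]
    obtain ⟨⟨u, v⟩, d⟩ := s
    have hd : d = 0 ∨ d = 1 ∨ d = 2 ∨ d = 3 := by fin_cases d <;> simp
    rcases hd with rfl | rfl | rfl | rfl
    · show (u + 1) - (v + 0) - 1 = u - v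
      ring
    · show (u + 0) - (v + 1) = u - v - 1
      ring
    · show (u + -1) - (v + 0) + 1 = u - v
      ring
    · show (u + 0) - (v + -1) = u - v + 1
      ring
  · right
    rw [h]

/-- at the first exit exactly one of the two kinds of exits occurs -/
theorem first_exit {a m b : ℕ} (ha : 1 ≤ a) (hm : 1 ≤ m) (hb : 1 ≤ b) (ω : Conf)
    (hex : ∃ n, Exit a m b (path m ω n)) :
    ∃ n, (∀ j < n, ¬ Exit a m b (path m ω j)) ∧
      ((RightBank m (path m ω n).1 ∧ -(a : ℤ) < leftCol (path m ω n) ∧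
          leftCol (path m ω n) < (m : ℤ) + b) ∨
        (¬ RightBank m (path m ω n).1 ∧
          (leftCol (path m ω n) ≤ -(a : ℤ) ∨ (m : ℤ) + b ≤ leftCol (path m ω n)))) := by
  classical
  have h1 := Nat.find_spec hex
  have h2 : ∀ j < Nat.find hex, ¬ Exit a m b (path m ω j) := fun j hj => Nat.find_min hex hj
  refine ⟨Nat.find hex, h2, ?_⟩
  generalize Nat.find hex = n at h1 h2
  cases n with
  | zero =>
    exfalso
    rcases h1 with h | h | h
    · have : (0:ℤ) - 0 = m := h.1
      omega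
    · have : (0:ℤ) - 0 + 1 ≤ -(a:ℤ) := h
      omega
    · have : (m:ℤ) + b ≤ 0 - 0 + 1 := h
      omega
  | succ n =>
    have h3 := h2 n (by omega)
    unfold Exit at h3
    push Not at h3
    obtain ⟨g1, g2, g3⟩ := h3
    rw [path_succ] at h1 ⊢
    rcases step_face m ω (path m ω n) with h | h
    · left
      rw [h]
      refine ⟨?_, g2, g3⟩
      rcases h1 with k | k | k
      · exact k
      · rw [h] at k; omega
      · rw [h] at k; omega
    · right
      rw [h]
      refine ⟨g1, ?_⟩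
      rcases h1 with k | k | k
      · rw [h] at k; exact absurd k g1
      · exact Or.inl k
      · exact Or.inr k

theorem not_exit {a m b : ℕ} {s : (ℤ × ℤ) × Fin 4} (h : ¬ Exit a m b s) :
    ¬ RightBank m s.1 ∧ -(a : ℤ) < leftCol s ∧ leftCol s < (m : ℤ) + b := by
  unfold Exit at h
  push Not at h
  exact h

theorem inner_sub {a m b : ℕ} (ha : 1 ≤ a) (hm : 1 ≤ m) (hb : 1 ≤ b) :
    InnerFirst a m b ⊆ FCross a m b := by
  rintro ω ⟨n, h1, h2⟩
  obtain ⟨n', h3, h4⟩ := first_exit ha hm hb ω ⟨n, Or.inl h1⟩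
  have hn : n' ≤ n := by
    by_contra hc
    push Not at hc
    exact h3 n hc (Or.inl h1)
  rcases h4 with ⟨k1, -, -⟩ | ⟨-, k2⟩
  · obtain ⟨⟨x, hx1, hx2, hr⟩, -⟩ := t_TX2 a m b ω n' ha hm hb (fun j hj => not_exit (h3 j hj))
    exact ⟨x, _, hx1, hx2, k1.1, k1.2, hr⟩
  · exfalso
    have := h2 n' hn
    omega

theorem outer_disj {a m b : ℕ} (ha : 1 ≤ a) (hm : 1 ≤ m) (hb : 1 ≤ b) :
    Disjoint (FCross a m b) (OuterFirst a m b) := by
  rw [Set.disjoint_left]
  rintro ω ⟨x, y, hx1, hx2, hy1, hy2, hr⟩ ⟨n, h1, h2⟩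
  obtain ⟨n', h3, h4⟩ := first_exit ha hm hb ω ⟨n, Or.inr h1⟩
  have hn : n' ≤ n := by
    by_contra hc
    push Not at hc
    exact h3 n hc (Or.inr h1)
  obtain ⟨V, hV, hV1, hV2, hV3⟩ := t_TX1 a m b ω x y hm hx1 hx2 hy1 hy2 hr
  rcases h4 with ⟨k1, -, -⟩ | ⟨-, k2⟩
  · exact h2 n' hn k1
  · have h5 := (t_TX2 a m b ω n' ha hm hb (fun j hj => not_exit (h3 j hj))).2 V hV
    rw [hV1] at h5
    have hne : (1 : ZMod 2) ≠ 0 := by decide
    rcases k2 with k2 | k2
    · -- the left wall: one more dual step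
      rw [leftCol_face] at k2
      set f := face (path m ω n') with hf
      rcases lt_or_eq_of_le k2 with k3 | k3
      · exact hne (h5.symm.trans (hV3 f (by omega)))
      · -- cross the edge between the columns `-a-1` and `-a`
        have h6 := hV ((f.1, f.2 + 1), 0) (by
          intro hc
          have h9 := hc.2.1
          simp only at h9
          omega) (by
          intro hc
          have h9 := hc.1.1
          simp only at h9
          omega)
        have e1 : face ((f.1, f.2 + 1), 0) = (f.1, f.2 + 1) := rfl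
        have e2 : face (((f.1, f.2 + 1) : ℤ × ℤ), ((0 : Fin 4) + 3)) = f := by
          show ((f.1, f.2 + 1 - 1) : ℤ × ℤ) = f
          ext
          · rfl
          · show f.2 + 1 - 1 = f.2
            ring
        rw [e1] at h6
        have h7 : V (f.1, f.2 + 1) = V f := h6.trans (congrArg V e2)
        have h8 := hV3 (f.1, f.2 + 1) (by show f.1 - (f.2 + 1) ≤ -(a:ℤ) - 1; omega)
        exact hne (h5.symm.trans (h7.symm.trans h8))
    · rw [leftCol_face] at k2
      exact hne (h5.symm.trans (hV2 _ k2))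

theorem exit_cover {a m b : ℕ} (ha : 1 ≤ a) (hm : 1 ≤ m) (hb : 1 ≤ b) (ω : Conf)
    (hex : ∃ n, Exit a m b (path m ω n)) : ω ∈ InnerFirst a m b ∪ OuterFirst a m b := by
  obtain ⟨n, h1, h2⟩ := first_exit ha hm hb ω hex
  rcases h2 with ⟨k1, k2⟩ | ⟨k1, k2⟩
  · left
    refine ⟨n, k1, fun j hj => ?_⟩
    rcases Nat.lt_or_eq_of_le hj with h | h
    · exact (not_exit (h1 j h)).2
    · rw [h]; exact k2
  · right
    refine ⟨n, k2, fun j hj => ?_⟩
    rcases Nat.lt_or_eq_of_le hj with h | h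
    · exact (not_exit (h1 j h)).1
    · rw [h]; exact k1

theorem inner_outer_disj (a m b : ℕ) : Disjoint (InnerFirst a m b) (OuterFirst a m b) := by
  rw [Set.disjoint_left]
  rintro ω ⟨n, h1, h2⟩ ⟨n', h3, h4⟩
  rcases le_total n n' with h | h
  · exact h4 n h h1
  · have := h2 n' h
    omega

theorem ae_cover {a m b : ℕ} (ha : 1 ≤ a) (hm : 1 ≤ m) (hb : 1 ≤ b) :
    ∀ᵐ ω ∂perc, ω ∈ InnerFirst a m b ∪ OuterFirst a m b := by
  filter_upwards [t_TX3 a m b ha hm hb] with ω hω
  exact exit_cover ha hm hb ω hω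

/-- `InnerFirst` is the crossing event up to a null set -/
theorem inner_eq {a m b : ℕ} (ha : 1 ≤ a) (hm : 1 ≤ m) (hb : 1 ≤ b) :
    perc.real (InnerFirst a m b) = perc.real (FCross a m b) := by
  refine le_antisymm (measureReal_mono (inner_sub ha hm hb)) ?_
  have h : (FCross a m b ∩ (InnerFirst a m b ∪ OuterFirst a m b) : Set Conf) =ᵐ[perc]
      (FCross a m b : Set Conf) := by
    have h1 : (InnerFirst a m b ∪ OuterFirst a m b : Set Conf) =ᵐ[perc] Set.univ :=
      eventuallyEq_univ.2 (ae_cover ha hm hb)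
    have h2 := (Filter.EventuallyEq.refl (ae perc) (FCross a m b : Set Conf)).inter h1
    rwa [Set.inter_univ] at h2
  rw [← measureReal_congr h]
  refine measureReal_mono ?_
  rintro ω ⟨h1, h2 | h2⟩
  · exact h2
  · exact absurd h2 (Set.disjoint_left.mp (outer_disj ha hm hb) h1)

theorem sum_one {a m b : ℕ} (ha : 1 ≤ a) (hm : 1 ≤ m) (hb : 1 ≤ b) :
    perc.real (InnerFirst a m b) + perc.real (OuterFirst a m b) = 1 := by
  rw [← measureReal_union (inner_outer_disj a m b) (t_TX4 a m b).2]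
  have h3 : (InnerFirst a m b ∪ OuterFirst a m b : Set Conf) =ᵐ[perc] Set.univ :=
    eventuallyEq_univ.2 (ae_cover ha hm hb)
  rw [measureReal_congr h3]
  exact probReal_univ

end Pool.Agent.H966.TX
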