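import Pool.Agent.H966.TX.Defs

/-!
TX1: planarity by a parity argument (helper736)
-/

namespace Pool.Agent.H966.TX.V

open Pool.Agent.H988R2.Perc hiding X
open Pool.Agent.H966.TX

/-- the indicator of a proposition -/
noncomputable def ind (p : Prop) : ZMod 2 := open Classical in if p then 1 else 0

theorem ind_add_eq {A B C D : Prop} (h : (A ↔ B) ↔ (C ↔ D)) :
    ind A + ind B = ind C + ind D := by
  unfold ind
  by_cases hA : A <;> by_cases hB : B <;> by_cases hC : C <;> by_cases hD : D <;>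
    simp [hA, hB, hC, hD] at h ⊢ <;> decide

theorem ind_add_eq' {A B C : Prop} (h : (A ↔ B) ↔ ¬ C) :
    ind A + ind B = ind C := by
  unfold ind
  by_cases hA : A <;> by_cases hB : B <;> by_cases hC : C <;>
    simp [hA, hB, hC] at h ⊢ <;> decide

theorem ind_false {A : Prop} (h : ¬ A) : ind A = 0 := by
  unfold ind
  rw [if_neg h]

theorem ind_true {A : Prop} (h : A) : ind A = 1 := by
  unfold ind
  rw [if_pos h]

theorem ind_congr {A B : Prop} (h : A ↔ B) : ind A = ind B := by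
  by_cases hA : A
  · rw [ind_true hA, ind_true (h.1 hA)]
  · rw [ind_false hA, ind_false (fun hB => hA (h.2 hB))]

theorem add_self (t : ZMod 2) : t + t = 0 := by
  revert t
  decide

/-- the four kinds of edges -/
def Nb (y z : ℤ × ℤ) : Prop :=
  (z.1 = y.1 + 1 ∧ z.2 = y.2) ∨ (y.1 = z.1 + 1 ∧ y.2 = z.2) ∨
  (z.1 = y.1 ∧ z.2 = y.2 + 1) ∨ (y.1 = z.1 ∧ y.2 = z.2 + 1)

theorem nb_of {ω : Conf} {y z : ℤ × ℤ} (h : OpenAdj ω y z) : Nb y z := by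
  unfold OpenAdj at h
  unfold Nb
  rcases h with ⟨h, -⟩ | ⟨h, -⟩ | ⟨h, -⟩ | ⟨h, -⟩
  · left; rw [h]; exact ⟨rfl, rfl⟩
  · right; left; rw [h]; exact ⟨rfl, rfl⟩
  · right; right; left; rw [h]; exact ⟨rfl, rfl⟩
  · right; right; right; rw [h]; exact ⟨rfl, rfl⟩

theorem openAdj_symm {ω : Conf} {y z : ℤ × ℤ} (h : OpenAdj ω y z) : OpenAdj ω z y := by
  unfold OpenAdj at h ⊢
  tauto

theorem fAdj_symm {a m b : ℕ} {ω : Conf} {y z : ℤ × ℤ} (h : FAdj a m b ω y z) :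
    FAdj a m b ω z y := by
  unfold FAdj at h ⊢
  obtain ⟨h1, h2, h3, h4, h5, h6⟩ := h
  exact ⟨openAdj_symm h1, h4, h5, h2, h3, fun ⟨q1, q2, q3, q4, q5, q6⟩ =>
    h6 ⟨q2, q1, q5, q6, q3, q4⟩⟩

/-- the edge `{y,z}` lies below the face `f` -/
def wp (f y z : ℤ × ℤ) : Prop :=
  ((y.1 - y.2 = f.1 - f.2 ∧ z.1 - z.2 = f.1 - f.2 + 1) ∨
    (z.1 - z.2 = f.1 - f.2 ∧ y.1 - y.2 = f.1 - f.2 + 1)) ∧
  y.1 + y.2 ≤ f.1 + f.2 + 1 ∧ z.1 + z.2 ≤ f.1 + f.2 + 1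

/-- the vertex `z` lies below the edge in direction `s.2` -/
def pp (s : (ℤ × ℤ) × Fin 4) (z : ℤ × ℤ) : Prop :=
  match s.2 with
  | 0 => z.1 - z.2 = s.1.1 - s.1.2 + 1 ∧ z.1 + z.2 ≤ s.1.1 + s.1.2 - 1
  | 1 => z.1 - z.2 = s.1.1 - s.1.2 ∧ z.1 + z.2 ≤ s.1.1 + s.1.2
  | 2 => z.1 - z.2 = s.1.1 - s.1.2 ∧ z.1 + z.2 ≤ s.1.1 + s.1.2 - 2
  | 3 => z.1 - z.2 = s.1.1 - s.1.2 + 1 ∧ z.1 + z.2 ≤ s.1.1 + s.1.2 - 1

theorem ne_of {a m b : ℕ} {ω : Conf} {y z : ℤ × ℤ} (h : FAdj a m b ω y z) {v u : ℤ × ℤ}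
    (hn : ¬ FAdj a m b ω v u) :
    ¬ (y.1 = v.1 ∧ y.2 = v.2 ∧ z.1 = u.1 ∧ z.2 = u.2) ∧
    ¬ (z.1 = v.1 ∧ z.2 = v.2 ∧ y.1 = u.1 ∧ y.2 = u.2) := by
  constructor
  · rintro ⟨h1, h2, h3, h4⟩
    have e1 : y = v := Prod.ext h1 h2
    have e2 : z = u := Prod.ext h3 h4
    rw [e1, e2] at h
    exact hn h
  · rintro ⟨h1, h2, h3, h4⟩
    have e1 : z = v := Prod.ext h1 h2
    have e2 : y = u := Prod.ext h3 h4
    rw [e1, e2] at h
    exact hn (fAdj_symm h)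

theorem local_id {a m b : ℕ} {ω : Conf} {y z : ℤ × ℤ} (h : FAdj a m b ω y z)
    (s : (ℤ × ℤ) × Fin 4) (hn : ¬ FAdj a m b ω s.1 (s.1 + vec s.2)) :
    ind (wp (face s) y z) + ind (wp (face (s.1, s.2 + 3)) y z) = ind (pp s y) + ind (pp s z) := by
  obtain ⟨h1, h2⟩ := ne_of h hn
  have hnb := nb_of h.1
  obtain ⟨⟨v1, v2⟩, d⟩ := s
  obtain ⟨y1, y2⟩ := y
  obtain ⟨z1, z2⟩ := z
  apply ind_add_eq
  unfold Nb at hnb
  fin_cases d
  · change (wp (v1, v2) (y1, y2) (z1, z2) ↔ wp (v1, v2 - 1) (y1, y2) (z1, z2)) ↔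
      ((y1 - y2 = v1 - v2 + 1 ∧ y1 + y2 ≤ v1 + v2 - 1) ↔
        (z1 - z2 = v1 - v2 + 1 ∧ z1 + z2 ≤ v1 + v2 - 1))
    change ¬ (y1 = v1 ∧ y2 = v2 ∧ z1 = v1 + 1 ∧ z2 = v2 + 0) at h1
    change ¬ (z1 = v1 ∧ z2 = v2 ∧ y1 = v1 + 1 ∧ y2 = v2 + 0) at h2
    unfold wp
    simp only at hnb ⊢
    rcases hnb with hnb | hnb | hnb | hnb <;> obtain ⟨n1, n2⟩ := hnb <;> subst n1 <;>
      subst n2 <;> omega
  · change (wp (v1 - 1, v2) (y1, y2) (z1, z2) ↔ wp (v1, v2) (y1, y2) (z1, z2)) ↔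
      ((y1 - y2 = v1 - v2 ∧ y1 + y2 ≤ v1 + v2) ↔
        (z1 - z2 = v1 - v2 ∧ z1 + z2 ≤ v1 + v2))
    change ¬ (y1 = v1 ∧ y2 = v2 ∧ z1 = v1 + 0 ∧ z2 = v2 + 1) at h1
    change ¬ (z1 = v1 ∧ z2 = v2 ∧ y1 = v1 + 0 ∧ y2 = v2 + 1) at h2
    unfold wp
    simp only at hnb ⊢
    rcases hnb with hnb | hnb | hnb | hnb <;> obtain ⟨n1, n2⟩ := hnb <;> subst n1 <;>
      subst n2 <;> omega
  · change (wp (v1 - 1, v2 - 1) (y1, y2) (z1, z2) ↔ wp (v1 - 1, v2) (y1, y2) (z1, z2)) ↔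
      ((y1 - y2 = v1 - v2 ∧ y1 + y2 ≤ v1 + v2 - 2) ↔
        (z1 - z2 = v1 - v2 ∧ z1 + z2 ≤ v1 + v2 - 2))
    change ¬ (y1 = v1 ∧ y2 = v2 ∧ z1 = v1 + -1 ∧ z2 = v2 + 0) at h1
    change ¬ (z1 = v1 ∧ z2 = v2 ∧ y1 = v1 + -1 ∧ y2 = v2 + 0) at h2
    unfold wp
    simp only at hnb ⊢
    rcases hnb with hnb | hnb | hnb | hnb <;> obtain ⟨n1, n2⟩ := hnb <;> subst n1 <;>
      subst n2 <;> omega
  · change (wp (v1, v2 - 1) (y1, y2) (z1, z2) ↔ wp (v1 - 1, v2 - 1) (y1, y2) (z1, z2)) ↔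
      ((y1 - y2 = v1 - v2 + 1 ∧ y1 + y2 ≤ v1 + v2 - 1) ↔
        (z1 - z2 = v1 - v2 + 1 ∧ z1 + z2 ≤ v1 + v2 - 1))
    change ¬ (y1 = v1 ∧ y2 = v2 ∧ z1 = v1 + 0 ∧ z2 = v2 + -1) at h1
    change ¬ (z1 = v1 ∧ z2 = v2 ∧ y1 = v1 + 0 ∧ y2 = v2 + -1) at h2
    unfold wp
    simp only at hnb ⊢
    rcases hnb with hnb | hnb | hnb | hnb <;> obtain ⟨n1, n2⟩ := hnb <;> subst n1 <;>
      subst n2 <;> omega

theorem exists_W {a m b : ℕ} {ω : Conf} (hm : 1 ≤ m) {x y : ℤ × ℤ}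
    (h : Relation.ReflTransGen (FAdj a m b ω) x y) :
    ∃ W : ℤ × ℤ → ZMod 2,
      (∀ s : (ℤ × ℤ) × Fin 4, ¬ FAdj a m b ω s.1 (s.1 + vec s.2) →
        W (face s) + W (face (s.1, s.2 + 3)) = ind (pp s x) + ind (pp s y)) ∧
      (∀ f : ℤ × ℤ, (m:ℤ) + b ≤ f.1 - f.2 → W f = 0) ∧
      (∀ f : ℤ × ℤ, f.1 - f.2 ≤ -(a:ℤ) - 1 → W f = 0) ∧
      W (0, 0) = ind (x.1 - x.2 ≤ 0) + ind (y.1 - y.2 ≤ 0) := by
  induction h with
  | refl =>
    refine ⟨fun _ => 0, fun s _ => ?_, fun _ _ => rfl, fun _ _ => rfl, ?_⟩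
    · change (0 : ZMod 2) + 0 = _
      rw [add_self (ind (pp s x)), add_zero]
    · rw [add_self]
  | @tail y z _ hyz ih =>
    obtain ⟨W, h1, h2, h3, h4⟩ := ih
    refine ⟨fun f => W f + ind (wp f y z), fun s hs => ?_, fun f hf => ?_, fun f hf => ?_, ?_⟩
    · have e1 := h1 s hs
      have e2 := local_id hyz s hs
      have e3 := add_self (ind (pp s y))
      linear_combination e1 + e2 + e3
    · change W f + ind (wp f y z) = 0
      rw [h2 f hf, zero_add]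
      apply ind_false
      intro hw
      obtain ⟨-, q1, q2, q3, q4, -⟩ := hyz
      unfold wp at hw
      push_cast at q2 q4
      omega
    · change W f + ind (wp f y z) = 0
      rw [h3 f hf, zero_add]
      apply ind_false
      intro hw
      obtain ⟨-, q1, q2, q3, q4, -⟩ := hyz
      unfold wp at hw
      omega
    · have e2 : ind (wp (0, 0) y z) = ind (y.1 - y.2 ≤ 0) + ind (z.1 - z.2 ≤ 0) := by
        have hnb := nb_of hyz.1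
        obtain ⟨-, q1, q2, q3, q4, q5⟩ := hyz
        symm
        apply ind_add_eq'
        unfold wp
        unfold Nb at hnb
        simp only
        omega
      have e3 := add_self (ind (y.1 - y.2 ≤ 0))
      linear_combination h4 + e2 + e3

/-- TX1 -/
theorem _root_.Pool.Agent.H966.TX.t_TX1 : S_TX1 := by
  intro a m b ω x y hm hx0 hx1 hy0 hy1 h
  obtain ⟨W, h1, h2, h3, h4⟩ := exists_W hm h
  refine ⟨fun f => W f + ind (f.1 - f.2 = 0 ∧ x.1 + x.2 < f.1 + f.2 + 1), ?_, ?_, ?_, ?_⟩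
  · intro s hs hb
    have e1 := h1 s hs
    have e2 : ind (pp s y) = 0 := by
      apply ind_false
      intro hp
      apply hb
      obtain ⟨⟨v1, v2⟩, d⟩ := s
      fin_cases d
      · change y.1 - y.2 = v1 - v2 + 1 ∧ y.1 + y.2 ≤ v1 + v2 - 1 at hp
        change Bad m (v1, v2) (v1 + 1, v2 + 0)
        unfold Bad InSlit
        simp only
        omega
      · change y.1 - y.2 = v1 - v2 ∧ y.1 + y.2 ≤ v1 + v2 at hp
        change Bad m (v1, v2) (v1 + 0, v2 + 1)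
        unfold Bad InSlit
        simp only
        omega
      · change y.1 - y.2 = v1 - v2 ∧ y.1 + y.2 ≤ v1 + v2 - 2 at hp
        change Bad m (v1, v2) (v1 + -1, v2 + 0)
        unfold Bad InSlit
        simp only
        omega
      · change y.1 - y.2 = v1 - v2 + 1 ∧ y.1 + y.2 ≤ v1 + v2 - 1 at hp
        change Bad m (v1, v2) (v1 + 0, v2 + -1)
        unfold Bad InSlit
        simp only
        omega
    have e3 : ind ((face s).1 - (face s).2 = 0 ∧ x.1 + x.2 < (face s).1 + (face s).2 + 1) +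
        ind ((face (s.1, s.2 + 3)).1 - (face (s.1, s.2 + 3)).2 = 0 ∧
          x.1 + x.2 < (face (s.1, s.2 + 3)).1 + (face (s.1, s.2 + 3)).2 + 1) =
        ind (pp s x) := by
      apply ind_add_eq'
      obtain ⟨⟨v1, v2⟩, d⟩ := s
      fin_cases d
      · change ¬ Bad m (v1, v2) (v1 + 1, v2 + 0) at hb
        change ((v1 - v2 = 0 ∧ x.1 + x.2 < v1 + v2 + 1) ↔
          (v1 - (v2 - 1) = 0 ∧ x.1 + x.2 < v1 + (v2 - 1) + 1)) ↔
          (¬ (x.1 - x.2 = v1 - v2 + 1 ∧ x.1 + x.2 ≤ v1 + v2 - 1))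
        unfold Bad InSlit at hb
        simp only at hb
        omega
      · change ¬ Bad m (v1, v2) (v1 + 0, v2 + 1) at hb
        change ((v1 - 1 - v2 = 0 ∧ x.1 + x.2 < v1 - 1 + v2 + 1) ↔
          (v1 - v2 = 0 ∧ x.1 + x.2 < v1 + v2 + 1)) ↔
          (¬ (x.1 - x.2 = v1 - v2 ∧ x.1 + x.2 ≤ v1 + v2))
        unfold Bad InSlit at hb
        simp only at hb
        omega
      · change ¬ Bad m (v1, v2) (v1 + -1, v2 + 0) at hb
        change ((v1 - 1 - (v2 - 1) = 0 ∧ x.1 + x.2 < v1 - 1 + (v2 - 1) + 1) ↔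
          (v1 - 1 - v2 = 0 ∧ x.1 + x.2 < v1 - 1 + v2 + 1)) ↔
          (¬ (x.1 - x.2 = v1 - v2 ∧ x.1 + x.2 ≤ v1 + v2 - 2))
        unfold Bad InSlit at hb
        simp only at hb
        omega
      · change ¬ Bad m (v1, v2) (v1 + 0, v2 + -1) at hb
        change ((v1 - (v2 - 1) = 0 ∧ x.1 + x.2 < v1 + (v2 - 1) + 1) ↔
          (v1 - 1 - (v2 - 1) = 0 ∧ x.1 + x.2 < v1 - 1 + (v2 - 1) + 1)) ↔
          (¬ (x.1 - x.2 = v1 - v2 + 1 ∧ x.1 + x.2 ≤ v1 + v2 - 1))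
        unfold Bad InSlit at hb
        simp only at hb
        omega
    have e4 := add_self (ind (pp s x))
    have e5 := add_self (W (face (s.1, s.2 + 3)))
    have e6 := add_self (ind ((face (s.1, s.2 + 3)).1 - (face (s.1, s.2 + 3)).2 = 0 ∧
          x.1 + x.2 < (face (s.1, s.2 + 3)).1 + (face (s.1, s.2 + 3)).2 + 1))
    linear_combination e1 + e2 + e3 + e4 - e5 - e6
  · have hs : ¬ FAdj a m b ω (0, 0) ((0, 0) + vec 0) := by
      intro hF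
      obtain ⟨-, -, -, -, -, q⟩ := hF
      apply q
      change (0 : ℤ) ≤ 0 + 0 ∧ (0 : ℤ) ≤ (0 + 1) + (0 + 0) ∧ (0 : ℤ) ≤ 0 - 0 ∧ (0 : ℤ) - 0 ≤ m ∧
        (0 : ℤ) ≤ (0 + 1) - (0 + 0) ∧ ((0 : ℤ) + 1) - (0 + 0) ≤ m
      omega
    have e1 := h1 ((0, 0), 0) hs
    have e2 : ind (pp ((0, 0), 0) x) = 0 := by
      apply ind_false
      intro hp
      change x.1 - x.2 = 0 - 0 + 1 ∧ x.1 + x.2 ≤ 0 + 0 - 1 at hp
      omega
    have e3 : ind (pp ((0, 0), 0) y) = 0 := by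
      apply ind_false
      intro hp
      change y.1 - y.2 = 0 - 0 + 1 ∧ y.1 + y.2 ≤ 0 + 0 - 1 at hp
      omega
    rw [e2, e3] at e1
    change W (0, 0) + W (0, 0 - 1) = 0 + 0 at e1
    have e4 : ind (x.1 - x.2 ≤ 0) = 1 := ind_true (by omega)
    have e5 : ind (y.1 - y.2 ≤ 0) = 0 := ind_false (by omega)
    rw [e4, e5] at h4
    have e6 : ind ((0 : ℤ) - (0 - 1) = 0 ∧ x.1 + x.2 < (0 : ℤ) + (0 - 1) + 1) = 0 :=
      ind_false (by omega)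
    change W (0, 0 - 1) + ind ((0 : ℤ) - (0 - 1) = 0 ∧ x.1 + x.2 < (0 : ℤ) + (0 - 1) + 1) = 1
    rw [e6]
    have e7 := add_self (W (0, 0))
    linear_combination e1 + h4 - e7
  · intro f hf
    change W f + ind (f.1 - f.2 = 0 ∧ x.1 + x.2 < f.1 + f.2 + 1) = 0
    rw [h2 f hf]
    rw [zero_add]
    apply ind_false
    omega
  · intro f hf
    change W f + ind (f.1 - f.2 = 0 ∧ x.1 + x.2 < f.1 + f.2 + 1) = 0
    rw [h3 f hf]
    rw [zero_add]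
    apply ind_false
    omega

end Pool.Agent.H966.TX.V
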